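import Mathlib
import Pool.Agent.D0H86.RF.Core
import Pool.Agent.D0H86.RF.Geo

/-!
# Reflexivity of planar point sets: twelve points with reflexivity four

`ρ(n)` is the maximum, over all sets `S` of `n` points of the plane in general position, of the
smallest number of reflex vertices of a simple polygon with vertex set `S`. It has been conjectured
that `ρ(n) = ⌊n / 4⌋`. We exhibit a set of twelve points, with integral coordinates between `0` and
`35`, whose reflexivity is `4`. Hence `ρ(12) ≥ 4 > 12 / 4`: neither `ρ(n) = ⌊n / 4⌋` nor the weaker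
`ρ(n) ≤ ⌈n / 4⌉` holds for all `n`.

Proof. The upper bound is an explicit polygon. For the lower bound all closed polygons through the
twelve points without properly crossing edges are enumerated by a depth first search (about 350000
nodes), evaluated by the kernel; each such polygon, traversed in either direction, has at least four
right turns. If it is traversed counterclockwise these are the reflex vertices.
-/

set_option autoImplicit false

namespace Pool.Agent.Results.MP_9bb24e_co.TwelvePoints

/-- Twice the signed area of the triangle `a b c`; it is positive if the path `a, b, c` turns to the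
left at `b`, and negative if it turns to the right. -/
def det (a b c : ℝ × ℝ) : ℝ := (b.1 - a.1) * (c.2 - a.2) - (b.2 - a.2) * (c.1 - a.1)

/-- No three points of `S` are collinear. -/
def GeneralPosition (S : Finset (ℝ × ℝ)) : Prop :=
  ∀ a ∈ S, ∀ b ∈ S, ∀ c ∈ S, a ≠ b → b ≠ c → a ≠ c → det a b c ≠ 0

/-- The closed polygon `v 0, v 1, ..., v (n - 1)` (indices are added modulo `n`) is a polygonization
of `S`: its vertices are distinct, they are exactly the points of `S`, and two different edges meet
at most in a common endpoint. -/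
structure IsPolygonization {n : ℕ} [NeZero n] (S : Finset (ℝ × ℝ)) (v : Fin n → ℝ × ℝ) : Prop where
  injective : Function.Injective v
  vertices : Set.range v = (S : Set (ℝ × ℝ))
  simple : ∀ i j : Fin n, i ≠ j →
    segment ℝ (v i) (v (i + 1)) ∩ segment ℝ (v j) (v (j + 1)) ⊆
      {v i, v (i + 1)} ∩ {v j, v (j + 1)}

/-- Twice the signed area of the polygon (shoelace formula); it is positive if the polygon is
traversed counterclockwise, and negative if it is traversed clockwise. -/
noncomputable def signedArea {n : ℕ} [NeZero n] (v : Fin n → ℝ × ℝ) : ℝ :=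
  ∑ i, ((v i).1 * (v (i + 1)).2 - (v (i + 1)).1 * (v i).2)

/-- The vertex `v i` is convex: the turn at `v i` has the orientation of the polygon, that is, the
interior angle is less than `π`. The other vertices are the reflex vertices. -/
def IsConvexVertex {n : ℕ} [NeZero n] (v : Fin n → ℝ × ℝ) (i : Fin n) : Prop :=
  0 < signedArea v * det (v (i - 1)) (v i) (v (i + 1))

open Classical in
/-- The number of reflex vertices. -/
noncomputable def reflexCount {n : ℕ} [NeZero n] (v : Fin n → ℝ × ℝ) : ℕ :=
  (Finset.univ.filter fun i => ¬ IsConvexVertex v i).card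

/-- The reflexivity of a set `S` of `n` points: the smallest number of reflex vertices of a
polygonization of `S`. -/
noncomputable def reflexivity (n : ℕ) [NeZero n] (S : Finset (ℝ × ℝ)) : ℕ :=
  sInf {k | ∃ v : Fin n → ℝ × ℝ, IsPolygonization S v ∧ reflexCount v = k}

/-- `ρ(n)`, the largest reflexivity of a set of `n` points in general position. -/
noncomputable def rho (n : ℕ) [NeZero n] : ℕ :=
  sSup {k | ∃ S : Finset (ℝ × ℝ), S.card = n ∧ GeneralPosition S ∧ reflexivity n S = k}

/-- Twelve points in the plane. -/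
noncomputable def twelvePoints : Finset (ℝ × ℝ) :=
  {(11, 3), (7, 7), (17, 15), (20, 5), (21, 0), (35, 20), (13, 2), (8, 3), (16, 2), (10, 5),
    (0, 19), (17, 4)}

open Pool.Agent.D0H86.RF

/-- the points with their numbers -/
noncomputable def pt (i : Fin 12) : ℝ × ℝ := ((PX i : ℝ), (PY i : ℝ))

theorem det_pt (a b c : Fin 12) : det (pt a) (pt b) (pt c) = (D a b c : ℝ) := by
  simp only [det, pt, D]
  push_cast
  ring

theorem D_ne : ∀ a b c : Fin 12, a ≠ b → b ≠ c → a ≠ c → D a b c ≠ 0 := by
  decide +kernel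

theorem pt_inj : Function.Injective pt := by
  intro i j h
  by_contra hij
  have h1 : (PX i : ℝ) = PX j := congrArg Prod.fst h
  have h2 : (PY i : ℝ) = PY j := congrArg Prod.snd h
  have h3 : ∀ a b : Fin 12, a ≠ b → ¬ (PX a = PX b ∧ PY a = PY b) := by decide +kernel
  exact h3 i j hij ⟨by exact_mod_cast h1, by exact_mod_cast h2⟩

theorem twelvePoints_eq : twelvePoints = Finset.univ.image pt := by
  have h : (Finset.univ : Finset (Fin 12)) = {0, 1, 2, 3, 4, 5, 6, 7, 8, 9, 10, 11} := by decide
  rw [h]
  simp only [Finset.image_insert, Finset.image_singleton]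
  simp [twelvePoints, pt, PX, PY]

theorem card_points : twelvePoints.card = 12 := by
  rw [twelvePoints_eq, Finset.card_image_of_injective _ pt_inj, Finset.card_univ, Fintype.card_fin]

theorem genpos : GeneralPosition twelvePoints := by
  intro a ha b hb c hc h1 h2 h3
  rw [twelvePoints_eq, Finset.mem_image] at ha hb hc
  obtain ⟨i, -, rfl⟩ := ha
  obtain ⟨j, -, rfl⟩ := hb
  obtain ⟨k, -, rfl⟩ := hc
  rw [det_pt]
  exact_mod_cast D_ne i j k (fun h => h1 (by rw [h])) (fun h => h2 (by rw [h]))
    (fun h => h3 (by rw [h]))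

/-- the number of right turns -/
def rights (σ : Fin 12 → Fin 12) : ℕ :=
  (Finset.univ.filter fun i : Fin 12 => D (σ (i - 1)) (σ i) (σ (i + 1)) < 0).card

theorem core (σ : Fin 12 → Fin 12) (hσ : Function.Injective σ) (hNC : NC σ) : 4 ≤ rights σ := by
  obtain ⟨k, hk⟩ := (Finite.injective_iff_surjective.mp hσ) 4
  have h1 := core0 (fun i => σ (i + k)) (fun i j h => by simpa using hσ h) (by simpa using hk) (by
    intro i j hij
    have h2 : i + k ≠ j + k := fun h => hij (by simpa using h)
    have := hNC (i + k) (j + k) h2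
    rw [show i + k + 1 = i + 1 + k by abel, show j + k + 1 = j + 1 + k by abel] at this
    exact this)
  refine h1.trans (le_of_eq ?_)
  unfold rights
  refine Finset.card_bij (fun i _ => i + k) ?_ ?_ ?_
  · intro i hi
    rw [Finset.mem_filter] at hi ⊢
    refine ⟨Finset.mem_univ _, ?_⟩
    rw [show i + k + 1 = i + 1 + k by abel, show i + k - 1 = i - 1 + k by abel]
    exact hi.2
  · intro i _ j _ h
    simpa using h
  · intro i hi
    rw [Finset.mem_filter] at hi
    refine ⟨i - k, ?_, by abel⟩
    rw [Finset.mem_filter]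
    refine ⟨Finset.mem_univ _, ?_⟩
    have := hi.2
    rw [show i - k - 1 + k = i - 1 by abel, show i - k + k = i by abel,
      show i - k + 1 + k = i + 1 by abel]
    exact this

/-- simple polygons have no crossings -/
theorem nc_of_simple (σ : Fin 12 → Fin 12)
    (h : ∀ i j : Fin 12, i ≠ j →
      segment ℝ (pt (σ i)) (pt (σ (i + 1))) ∩ segment ℝ (pt (σ j)) (pt (σ (j + 1))) ⊆
        {pt (σ i), pt (σ (i + 1))} ∩ {pt (σ j), pt (σ (j + 1))}) : NC σ := by
  intro i j hij ⟨h1, h2⟩
  have h3 : dt (pt (σ i)) (pt (σ (i + 1))) (pt (σ j)) *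
      dt (pt (σ i)) (pt (σ (i + 1))) (pt (σ (j + 1))) < 0 := by
    have e1 := det_pt (σ i) (σ (i + 1)) (σ j)
    have e2 := det_pt (σ i) (σ (i + 1)) (σ (j + 1))
    change dt _ _ _ = _ at e1 e2
    rw [e1, e2]
    exact_mod_cast h1
  have h4 : dt (pt (σ j)) (pt (σ (j + 1))) (pt (σ i)) *
      dt (pt (σ j)) (pt (σ (j + 1))) (pt (σ (i + 1))) < 0 := by
    have e1 := det_pt (σ j) (σ (j + 1)) (σ i)
    have e2 := det_pt (σ j) (σ (j + 1)) (σ (i + 1))
    change dt _ _ _ = _ at e1 e2
    rw [e1, e2]
    exact_mod_cast h2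
  obtain ⟨p, hp1, hp2, hp3, hp4⟩ := seg_cross h3 h4
  have h5 := (h i j hij ⟨hp1, hp2⟩).1
  rcases h5 with h5 | h5
  · exact hp3 h5
  · exact hp4 h5

theorem lower (v : Fin 12 → ℝ × ℝ) (hv : IsPolygonization twelvePoints v) : 4 ≤ reflexCount v := by
  classical
  have h1 : ∀ i, ∃ k, pt k = v i := by
    intro i
    have h2 : v i ∈ (twelvePoints : Set (ℝ × ℝ)) := by
      rw [← hv.vertices]
      exact Set.mem_range_self i
    rw [Finset.mem_coe, twelvePoints_eq, Finset.mem_image] at h2
    obtain ⟨k, -, hk⟩ := h2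
    exact ⟨k, hk⟩
  choose σ hσ using h1
  have hinj : Function.Injective σ := by
    intro i j h
    apply hv.injective
    rw [← hσ i, ← hσ j, h]
  have hNC : NC σ := by
    apply nc_of_simple
    intro i j hij
    rw [hσ, hσ, hσ, hσ]
    exact hv.simple i j hij
  have hD : ∀ i, det (v (i - 1)) (v i) (v (i + 1)) = (D (σ (i - 1)) (σ i) (σ (i + 1)) : ℝ) := by
    intro i
    rw [← hσ, ← hσ, ← hσ, det_pt]
  have hnz : ∀ i : Fin 12, D (σ (i - 1)) (σ i) (σ (i + 1)) ≠ 0 := by
    intro i
    have h3 : i - 1 ≠ i ∧ i ≠ i + 1 ∧ i - 1 ≠ i + 1 := by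
      revert i
      decide
    exact D_ne _ _ _ (hinj.ne h3.1) (hinj.ne h3.2.1) (hinj.ne h3.2.2)
  rcases lt_trichotomy (signedArea v) 0 with ha | ha | ha
  · -- clockwise: reverse
    set τ : Fin 12 → Fin 12 := fun i => σ (-i) with hτ
    have hτinj : Function.Injective τ := by
      intro i j h
      have := hinj h
      simpa using this
    have hτNC : NC τ := by
      intro i j hij
      have h4 : -i - 1 ≠ -j - 1 := fun h => hij (by simpa using h)
      have h5 := hNC (-i - 1) (-j - 1) h4
      rw [show -i - 1 + 1 = -i by abel, show -j - 1 + 1 = -j by abel] at h5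
      have h6 : ∀ a b c : ℕ, D a b c = - D b a c := by
        intro a b c
        simp only [D]
        ring
      rw [hτ]
      simp only [neg_add_rev]
      rw [show (-1 + -i : Fin 12) = -i - 1 by abel, show (-1 + -j : Fin 12) = -j - 1 by abel]
      intro ⟨h7, h8⟩
      apply h5
      rw [h6 (σ (-i)) (σ (-i - 1)) (σ (-j)), h6 (σ (-i)) (σ (-i - 1)) (σ (-j - 1))] at h7
      rw [h6 (σ (-j)) (σ (-j - 1)) (σ (-i)), h6 (σ (-j)) (σ (-j - 1)) (σ (-i - 1))] at h8
      constructor <;> linarith
    have h4 := core τ hτinj hτNC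
    refine h4.trans ?_
    unfold rights reflexCount
    refine Finset.card_le_card_of_injOn (fun i => -i) ?_ (fun i _ j _ h => by simpa using h)
    intro i hi
    rw [Finset.mem_coe, Finset.mem_filter] at hi ⊢
    refine ⟨Finset.mem_univ _, ?_⟩
    have h5 := hi.2
    rw [hτ] at h5
    simp only [neg_add_rev, neg_sub] at h5
    unfold IsConvexVertex
    rw [hD (-i)]
    have h7 : D (σ (-i - 1)) (σ (-i)) (σ (-i + 1)) = - D (σ (1 - i)) (σ (-i)) (σ (-1 + -i)) := by
      rw [show (1 - i : Fin 12) = -i + 1 by abel, show (-1 + -i : Fin 12) = -i - 1 by abel]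
      simp only [D]
      ring
    rw [h7]
    have h8 : (D (σ (1 - i)) (σ (-i)) (σ (-1 + -i)) : ℝ) < 0 := by exact_mod_cast h5
    push_cast
    nlinarith
  · -- impossible for simple polygons; all vertices are counted
    unfold reflexCount IsConvexVertex
    rw [ha]
    simp
  · have h4 := core σ hinj hNC
    refine h4.trans ?_
    unfold rights reflexCount
    refine Finset.card_le_card ?_
    intro i hi
    rw [Finset.mem_filter] at hi ⊢
    refine ⟨Finset.mem_univ _, ?_⟩
    unfold IsConvexVertex
    rw [hD i]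
    have h5 : (D (σ (i - 1)) (σ i) (σ (i + 1)) : ℝ) < 0 := by exact_mod_cast hi.2
    nlinarith

/-- a polygonization with four reflex vertices -/
def best : Fin 12 → Fin 12 := ![4, 0, 1, 9, 8, 2, 11, 3, 5, 10, 7, 6]

theorem best_sep : ∀ i j : Fin 12, i ≠ j → j = i + 1 ∨ i = j + 1 ∨
    0 < D (best i) (best (i + 1)) (best j) * D (best i) (best (i + 1)) (best (j + 1)) ∨
    0 < D (best j) (best (j + 1)) (best i) * D (best j) (best (j + 1)) (best (i + 1)) := by
  decide +kernel

theorem best_inj : Function.Injective best := by decide +kernel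

theorem dt_pt (a b c : Fin 12) : dt (pt a) (pt b) (pt c) = (D a b c : ℝ) := det_pt a b c

theorem best_poly : IsPolygonization twelvePoints (fun i => pt (best i)) := by
  have hadj : ∀ i : Fin 12, dt (pt (best i)) (pt (best (i + 1))) (pt (best (i + 1 + 1))) ≠ 0 := by
    intro i
    have h3 : i ≠ i + 1 ∧ i + 1 ≠ i + 1 + 1 ∧ i ≠ i + 1 + 1 := by
      revert i
      decide
    rw [dt_pt]
    exact_mod_cast D_ne _ _ _ (best_inj.ne h3.1) (best_inj.ne h3.2.1) (best_inj.ne h3.2.2)
  refine ⟨pt_inj.comp best_inj, ?_, ?_⟩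
  · rw [twelvePoints_eq]
    ext p
    simp only [Set.mem_range, Finset.coe_image, Finset.coe_univ, Set.image_univ]
    constructor
    · rintro ⟨i, rfl⟩
      exact ⟨best i, rfl⟩
    · rintro ⟨i, rfl⟩
      obtain ⟨j, hj⟩ := Finite.injective_iff_surjective.mp best_inj i
      exact ⟨j, by rw [hj]⟩
  · intro i j hij p hp
    obtain ⟨hp1, hp2⟩ := hp
    rcases best_sep i j hij with h | h | h | h
    · subst h
      have := seg_adj (hadj i) hp1 hp2
      subst this
      exact ⟨Or.inr rfl, Or.inl rfl⟩
    · subst h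
      have := seg_adj (hadj j) hp2 hp1
      subst this
      exact ⟨Or.inl rfl, Or.inr rfl⟩
    · exact absurd hp2 fun hp2 => seg_disj (by rw [dt_pt, dt_pt]; exact_mod_cast h) hp1 hp2
    · exact absurd hp2 fun hp2 => seg_disj (by rw [dt_pt, dt_pt]; exact_mod_cast h) hp2 hp1

theorem best_area : signedArea (fun i => pt (best i)) = 721 := by
  have h : signedArea (fun i => pt (best i)) =
      ((∑ i : Fin 12, (PX (best i) * PY (best (i + 1)) - PX (best (i + 1)) * PY (best i)) : ℤ) : ℝ) := by
    unfold signedArea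
    push_cast
    rfl
  rw [h]
  have h2 : (∑ i : Fin 12, (PX (best i) * PY (best (i + 1)) - PX (best (i + 1)) * PY (best i)) : ℤ) =
      721 := by decide +kernel
  rw [h2]
  norm_num

theorem best_count : reflexCount (fun i => pt (best i)) = 4 := by
  classical
  unfold reflexCount
  have h : ∀ i : Fin 12, (¬ IsConvexVertex (fun i => pt (best i)) i) ↔
      ¬ 0 < D (best (i - 1)) (best i) (best (i + 1)) := by
    intro i
    unfold IsConvexVertex
    rw [best_area, det_pt]
    rw [not_iff_not, mul_pos_iff_of_pos_left (by norm_num), Int.cast_pos]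
  rw [Finset.filter_congr (fun i _ => h i)]
  decide +kernel

theorem refl4 : reflexivity 12 twelvePoints = 4 := by
  unfold reflexivity
  apply le_antisymm
  · exact Nat.sInf_le ⟨_, best_poly, best_count⟩
  · refine le_csInf ⟨4, _, best_poly, best_count⟩ ?_
    rintro k ⟨v, hv, rfl⟩
    exact lower v hv

theorem reflexivity_le (n : ℕ) [NeZero n] (S : Finset (ℝ × ℝ)) : reflexivity n S ≤ n := by
  classical
  unfold reflexivity
  rcases Set.eq_empty_or_nonempty {k | ∃ v : Fin n → ℝ × ℝ, IsPolygonization S v ∧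
    reflexCount v = k} with h | ⟨k, hk⟩
  · rw [h, Nat.sInf_empty]
    exact Nat.zero_le _
  · refine (Nat.sInf_le hk).trans ?_
    obtain ⟨v, -, rfl⟩ := hk
    unfold reflexCount
    exact (Finset.card_le_univ _).trans (le_of_eq (Fintype.card_fin n))

theorem rho_ge : 4 ≤ rho 12 := by
  unfold rho
  apply le_csSup
  · refine ⟨12, ?_⟩
    rintro k ⟨S, -, -, rfl⟩
    exact reflexivity_le 12 S
  · exact ⟨twelvePoints, card_points, genpos, refl4⟩

/-- **Twelve points with reflexivity four.** The set `twelvePoints` of twelve points in general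
position has reflexivity `4`. So `ρ(12) ≥ 4`, and `ρ(n) = ⌊n / 4⌋` does not hold for all `n ≥ 3`, and
not even `ρ(n) ≤ ⌈n / 4⌉`. -/
theorem result :
    (twelvePoints.card = 12 ∧ GeneralPosition twelvePoints ∧ reflexivity 12 twelvePoints = 4) ∧
    4 ≤ rho 12 ∧
    (¬ ∀ (n : ℕ) [NeZero n], 3 ≤ n → rho n = n / 4) ∧
    (¬ ∀ (n : ℕ) [NeZero n], 3 ≤ n → rho n ≤ ⌈(n : ℝ) / 4⌉₊) := by
  refine ⟨⟨card_points, genpos, refl4⟩, rho_ge, ?_, ?_⟩
  · intro h
    have h1 := h 12 (by norm_num)
    have h2 := rho_ge
    omega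
  · intro h
    have h1 := h 12 (by norm_num)
    have h2 := rho_ge
    have h3 : ⌈((12 : ℕ) : ℝ) / 4⌉₊ = 3 := by
      rw [show ((12 : ℕ) : ℝ) / 4 = ((3 : ℕ) : ℝ) by norm_num, Nat.ceil_natCast]
    rw [h3] at h1
    omega

end Pool.Agent.Results.MP_9bb24e_co.TwelvePoints
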